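import Pool.Agent.Q255.TQ.Aec2

set_option autoImplicit false

/-! The almost sure bound. -/

namespace Pool.Agent.Q255.TQ

open Finset Filter Topology MeasureTheory Pool.Agent.H306R2.RZ
open Pool.Agent.Q122.FM (kron IsFund LHalf IG kr2)
open Pool.Agent.Q163.HC (od ch_eq_wp ae_main)
open Pool.Agent.Q163.GC (ch ch_mul)
open Pool.Agent.Q163.RX (cm)

theorem t_AEC (sm : S_SUM) (krm : S_KRM) (dv : S_DIV) : S_AEC := by
  classical
  intro k A B w hk hA hB hw δ hδ
  obtain ⟨C, hC, hsq⟩ := Cc_sq sm krm dv k A hk hA (δ / 1) (by linarith)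
  have hB0 : 0 ≤ B := by linarith
  set T : ℕ → Finset (ℤ × ℕ) := fun R => ({1, -1} : Finset ℤ) ×ˢ Icc 1 (R ^ A) with hT
  set I : ℕ → ℤ × ℕ → Finset ℕ := fun _ t => (sqf (t.2 ^ k)).filter (fun s => s ≠ 1) with hI
  set v : ℕ → ℤ × ℕ → ℕ → ℝ := fun R t s => Cc t.1 R t.2 k (w t.1) s with hv
  have hmT : ∀ R t, t ∈ T R → (t.1 = 1 ∨ t.1 = -1) ∧ 1 ≤ t.2 ∧ t.2 ≤ R ^ A := by
    intro R t ht
    simp only [hT, mem_product, mem_insert, mem_singleton, mem_Icc] at ht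
    exact ⟨ht.1, ht.2.1, ht.2.2⟩
  have hmI : ∀ R t s, s ∈ I R t → 1 ≤ s ∧ s ≤ t.2 ^ k ∧ Squarefree s ∧ s ≠ 1 := by
    intro R t s hs
    simp only [hI, mem_filter] at hs
    have h1 := hs.1
    unfold sqf at h1
    rw [mem_filter, mem_Icc] at h1
    exact ⟨h1.1.1, h1.1.2, h1.2, hs.2⟩
  have hae := ae_main T A 2 (by
      intro R _
      rw [hT]
      simp only [card_product, Nat.card_Icc, Nat.add_sub_cancel]
      have : (({1, -1} : Finset ℤ)).card = 2 := by decide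
      rw [this]
      push_cast
      exact le_rfl) I v (fun _ _ s => s) (A * k) 1 le_rfl (by
      intro R hR t ht s hs
      have h1 := hmT R t ht
      have h2 := hmI R t s hs
      refine ⟨h2.1, ?_⟩
      rw [one_mul, pow_mul]
      have h3 : s ≤ (R ^ A) ^ k := h2.2.1.trans (Nat.pow_le_pow_left h1.2.2 k)
      exact_mod_cast h3) (fun R _ => B ^ 2 * (C * (R : ℝ) ^ (1 + δ))) (by
      intro R hR t _
      have : (0 : ℝ) < R := by exact_mod_cast hR
      positivity) (by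
      intro R hR t ht
      have h1 := hmT R t ht
      refine ⟨1, ?_, ?_⟩
      · intro U
        rw [card_le_one]
        intro a ha b hb
        rw [mem_filter] at ha hb
        exact od_inj (hmI R t a ha.1).2.2.1 (hmI R t b hb.1).2.2.1 (ha.2.trans hb.2.symm)
      · rw [Nat.cast_one, one_mul]
        have h2 := hsq t.1 h1.1 R t.2 (w t.1) B hB0 (fun u n hu hn => (hw t.1 u n hu hn).1)
          (fun u n hu hn => (hw t.1 u n hu hn).2) hR h1.2.1 h1.2.2
        rw [div_one] at h2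
        exact h2) (δ / 2) (by linarith)
  filter_upwards [hae] with ω hω
  obtain ⟨R0, hR0⟩ := eventually_atTop.1 hω
  set F : ℕ → ℤ × ℕ → ℝ := fun R t => |SS t.1 R t.2 k (w t.1) (ch ω) - DG t.1 R t.2 k (w t.1)| with hF
  have hF0 : ∀ R t, 0 ≤ F R t := fun R t => abs_nonneg _
  refine ⟨B * Real.sqrt C + ∑ R ∈ range R0, ∑ t ∈ T R, F R t, ?_⟩
  intro ε hε X N hX hN hNX
  have hX1 : (1 : ℝ) ≤ X := by exact_mod_cast hX
  have hX0 : (0 : ℝ) < X := by linarith
  have hmem : (ε, N) ∈ T X := by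
    simp only [hT, mem_product, mem_insert, mem_singleton, mem_Icc]
    exact ⟨hε, hN, hNX⟩
  have hpow : (1 : ℝ) ≤ (X : ℝ) ^ (1 / 2 + δ) := Real.one_le_rpow hX1 (by positivity)
  have hsum0 : 0 ≤ ∑ R ∈ range R0, ∑ t ∈ T R, F R t :=
    sum_nonneg fun R _ => sum_nonneg fun t _ => hF0 R t
  rcases lt_or_ge X R0 with hlt | hge
  · have h1 : F X (ε, N) ≤ ∑ R ∈ range R0, ∑ t ∈ T R, F R t := by
      refine le_trans ?_ (single_le_sum (f := fun R => ∑ t ∈ T R, F R t)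
        (fun R _ => sum_nonneg fun t _ => hF0 R t) (mem_range.2 hlt))
      exact single_le_sum (f := fun t => F X t) (fun t _ => hF0 X t) hmem
    calc F X (ε, N) ≤ ∑ R ∈ range R0, ∑ t ∈ T R, F R t := h1
      _ ≤ B * Real.sqrt C + ∑ R ∈ range R0, ∑ t ∈ T R, F R t := by
          have : 0 ≤ B * Real.sqrt C := by positivity
          linarith
      _ ≤ (B * Real.sqrt C + ∑ R ∈ range R0, ∑ t ∈ T R, F R t) * (X : ℝ) ^ (1 / 2 + δ) :=
          le_mul_of_one_le_right (by positivity) hpow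
  · have h1 := hR0 X hge (ε, N) hmem
    have h2 : |SS ε X N k (w ε) (ch ω) - DG ε X N k (w ε)| ≤
        (X : ℝ) ^ (δ / 2) * Real.sqrt (B ^ 2 * (C * (X : ℝ) ^ (1 + δ))) := by
      rw [diff_eq krm hε X N k hN (w ε) ω]
      exact h1
    have h3 : (X : ℝ) ^ (δ / 2) * Real.sqrt (B ^ 2 * (C * (X : ℝ) ^ (1 + δ))) =
        B * Real.sqrt C * (X : ℝ) ^ (1 / 2 + δ) := by
      rw [Real.sqrt_mul (sq_nonneg B), Real.sqrt_sq hB0, Real.sqrt_mul hC.le]
      have h4 : Real.sqrt ((X : ℝ) ^ (1 + δ)) = (X : ℝ) ^ ((1 + δ) / 2) := by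
        rw [Real.sqrt_eq_rpow, ← Real.rpow_mul hX0.le]
        congr 1
        ring
      have h5 : (X : ℝ) ^ (1 / 2 + δ) = (X : ℝ) ^ (δ / 2) * (X : ℝ) ^ ((1 + δ) / 2) := by
        rw [← Real.rpow_add hX0]
        congr 1
        ring
      rw [h4, h5]
      ring
    rw [h3] at h2
    refine h2.trans ?_
    rw [add_mul]
    have : 0 ≤ (∑ R ∈ range R0, ∑ t ∈ T R, F R t) * (X : ℝ) ^ (1 / 2 + δ) := by positivity
    linarith

end Pool.Agent.Q255.TQ
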