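import Pool.Agent.Q255.TQ.Sf

set_option autoImplicit false

/-! The coefficients of the off-diagonal part. -/

namespace Pool.Agent.Q255.TQ

open Finset Filter Topology MeasureTheory Pool.Agent.H306R2.RZ
open Pool.Agent.Q122.FM (kron IsFund LHalf IG kr2)
open Pool.Agent.Q163.HC (od ch_eq_wp)
open Pool.Agent.Q163.GC (ch ch_mul)
open Pool.Agent.Q163.RX (cm)

lemma Tu_mem {k N : ℕ} {t : Fin k → ℕ} : t ∈ Tu k N ↔ ∀ i, 1 ≤ t i ∧ t i ≤ N := by
  unfold Tu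
  rw [Fintype.mem_piFinset]
  exact forall_congr' fun i => mem_Icc

lemma pr_pos {k : ℕ} {t : Fin k → ℕ} (ht : ∀ i, 1 ≤ t i) : 1 ≤ ∏ i, t i := by
  refine Nat.one_le_iff_ne_zero.2 (prod_ne_zero_iff.2 fun i _ => ?_)
  have := ht i
  omega

lemma pr_le {k N : ℕ} {t : Fin k → ℕ} (ht : ∀ i, t i ≤ N) : ∏ i, t i ≤ N ^ k := by
  have := prod_le_prod' (s := (univ : Finset (Fin k))) (f := t) (g := fun _ => N) fun i _ => ht i
  simpa using this

lemma ch_pr (ω : ℕ → Bool) {k : ℕ} {t : Fin k → ℕ} (ht : ∀ i, 1 ≤ t i) :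
    ch ω (∏ i, t i) = ∏ i, ch ω (t i) := by
  have key : ∀ S : Finset (Fin k), (∏ i ∈ S, t i ≠ 0) ∧ ch ω (∏ i ∈ S, t i) = ∏ i ∈ S, ch ω (t i) := by
    intro S
    induction S using Finset.cons_induction with
    | empty => simp [ch_one]
    | cons a S ha ih =>
      rw [prod_cons, prod_cons]
      have h0 : t a ≠ 0 := by have := ht a; omega
      exact ⟨mul_ne_zero h0 ih.1, by rw [ch_mul ω h0 ih.1, ih.2]⟩
  exact (key univ).2

lemma kron_pr (krm : S_KRM) (D : ℤ) {k : ℕ} {t : Fin k → ℕ} (ht : ∀ i, 1 ≤ t i) :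
    kron D (∏ i, t i) = ∏ i, kron D (t i) := by
  have key : ∀ S : Finset (Fin k), (1 ≤ ∏ i ∈ S, t i) ∧ kron D (∏ i ∈ S, t i) = ∏ i ∈ S, kron D (t i) := by
    intro S
    induction S using Finset.cons_induction with
    | empty => simp [(krm D).2.1]
    | cons a S ha ih =>
      rw [prod_cons, prod_cons]
      exact ⟨Nat.mul_pos (ht a) ih.1, by rw [(krm D).1 _ _ (ht a) ih.1, ih.2]⟩
  exact (key univ).2

lemma term_eq (krm : S_KRM) (ω : ℕ → Bool) (D : ℤ) {k : ℕ} {t : Fin k → ℕ} (ht : ∀ i, 1 ≤ t i) :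
    ∏ i, (ch ω (t i) * (kron D (t i) : ℝ) / Real.sqrt (t i)) =
      ch ω (∏ i, t i) * (kron D (∏ i, t i) : ℝ) / Real.sqrt ((∏ i, t i : ℕ) : ℝ) := by
  rw [prod_div_distrib, prod_mul_distrib, ch_pr ω ht, kron_pr krm D ht]
  congr 1
  · push_cast
    rfl
  · rw [Nat.cast_prod]
    have key : ∀ S : Finset (Fin k), ∏ i ∈ S, Real.sqrt (t i) = Real.sqrt (∏ i ∈ S, (t i : ℝ)) := by
      intro S
      induction S using Finset.cons_induction with
      | empty => simp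
      | cons a S ha ih =>
        rw [prod_cons, prod_cons, ih, Real.sqrt_mul (Nat.cast_nonneg _)]
    exact key univ

/-- the coefficient of `f(s)` -/
noncomputable def Cc (ε : ℤ) (X N k : ℕ) (w : (Fin k → ℕ) → ℕ → ℝ) (s : ℕ) : ℝ :=
  ∑ t ∈ (Tu k N).filter (fun t => sfp (∏ i, t i) = s),
    (∑ n ∈ Fs ε X, w t n * (kron (ε * (n : ℤ)) (∏ i, t i) : ℝ)) / Real.sqrt ((∏ i, t i : ℕ) : ℝ)

lemma SS_eq (krm : S_KRM) (ε : ℤ) (X N k : ℕ) (w : (Fin k → ℕ) → ℕ → ℝ) (ω : ℕ → Bool) :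
    SS ε X N k w (ch ω) = ∑ s ∈ sqf (N ^ k), Cc ε X N k w s * ch ω s := by
  have hmem : ∀ t ∈ Tu k N, sfp (∏ i, t i) ∈ sqf (N ^ k) := by
    intro t ht
    have h1 := Tu_mem.1 ht
    have h2 := pr_pos fun i => (h1 i).1
    unfold sqf
    rw [mem_filter, mem_Icc]
    exact ⟨⟨sfp_pos _, (sfp_le _ h2).trans (pr_le fun i => (h1 i).2)⟩, sfp_sqf _⟩
  unfold SS
  rw [sum_comm, ← sum_fiberwise_of_maps_to hmem]
  refine sum_congr rfl fun s _ => ?_
  unfold Cc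
  rw [sum_mul]
  refine sum_congr rfl fun t ht => ?_
  rw [mem_filter] at ht
  have h1 := fun i => (Tu_mem.1 ht.1 i).1
  rw [← ht.2, ch_sfp, sum_div, sum_mul]
  refine sum_congr rfl fun n _ => ?_
  rw [term_eq krm ω _ h1]
  ring

lemma natAbs_mul {ε : ℤ} (hε : ε = 1 ∨ ε = -1) (n : ℕ) : (ε * (n : ℤ)).natAbs = n := by
  rcases hε with h | h <;> rw [h] <;> simp

open Classical in
lemma mem_Fs {ε : ℤ} {X n : ℕ} : n ∈ Fs ε X ↔ (1 ≤ n ∧ n ≤ X) ∧ IsFund (ε * (n : ℤ)) := by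
  unfold Fs
  rw [mem_filter, mem_Icc]

/-- the value at `s l²` -/
lemma kron_sl (krm : S_KRM) {ε : ℤ} (hε : ε = 1 ∨ ε = -1) {n : ℕ} (hn : IsFund (ε * (n : ℤ)))
    {s l : ℕ} (hs : 1 ≤ s) (hl : 1 ≤ l) :
    (kron (ε * (n : ℤ)) (s * l ^ 2) : ℝ) =
      if n.Coprime l then (kron (ε * (n : ℤ)) s : ℝ) else 0 := by
  rw [(krm _).1 s (l ^ 2) hs (Nat.one_le_pow _ _ hl), (krm _).2.2.2 hn l hl, natAbs_mul hε]
  split_ifs <;> simp

lemma DG_eq (krm : S_KRM) {ε : ℤ} (hε : ε = 1 ∨ ε = -1) (X N k : ℕ) (w : (Fin k → ℕ) → ℕ → ℝ) :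
    DG ε X N k w = Cc ε X N k w 1 := by
  have hL : DG ε X N k w = ∑ n ∈ Fs ε X, ∑ t ∈ (Tu k N).filter (fun t => sfp (∏ i, t i) = 1),
      w t n * (kron (ε * (n : ℤ)) (∏ i, t i) : ℝ) / Real.sqrt ((∏ i, t i : ℕ) : ℝ) := by
    unfold DG
    refine sum_congr rfl fun n hn => ?_
    rw [sum_filter, sum_filter]
    refine sum_congr rfl fun t ht => ?_
    have h1 := pr_pos fun i => (Tu_mem.1 ht i).1
    by_cases hsq : IsSquare (∏ i, t i)
    · have h2 := (sfp_one_iff h1).2 hsq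
      rw [if_pos h2]
      have h3 := sfp_mul _ h1
      rw [h2, one_mul] at h3
      have h4 : (kron (ε * (n : ℤ)) (∏ i, t i) : ℝ) = if n.Coprime (∏ i, t i) then 1 else 0 := by
        have h5 := kron_sl krm hε (mem_Fs.1 hn).2 (le_refl 1) (rt_pos (∏ i, t i))
        rw [one_mul, h3, (krm _).2.1] at h5
        rw [h5]
        have h6 : n.Coprime (rt (∏ i, t i)) ↔ n.Coprime (∏ i, t i) := by
          conv_rhs => rw [← h3]
          exact (Nat.coprime_pow_right_iff (by norm_num) n _).symm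
        simp only [h6]
        push_cast
        rfl
      rw [h4]
      by_cases hc : n.Coprime (∏ i, t i)
      · rw [if_pos ⟨hsq, hc⟩, if_pos hc, mul_one]
      · rw [if_neg fun h => hc h.2, if_neg hc, mul_zero, zero_div]
    · rw [if_neg fun h => hsq h.1, if_neg fun h => hsq ((sfp_one_iff h1).1 h)]
  rw [hL, sum_comm]
  unfold Cc
  refine sum_congr rfl fun t _ => ?_
  rw [sum_div]

/-- the off-diagonal part -/
lemma diff_eq (krm : S_KRM) {ε : ℤ} (hε : ε = 1 ∨ ε = -1) (X N k : ℕ) (hN : 1 ≤ N)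
    (w : (Fin k → ℕ) → ℕ → ℝ) (ω : ℕ → Bool) :
    SS ε X N k w (ch ω) - DG ε X N k w =
      ∑ s ∈ (sqf (N ^ k)).filter (fun s => s ≠ 1), Cc ε X N k w s * ch ω s := by
  have h1 : (1 : ℕ) ∈ sqf (N ^ k) := by
    unfold sqf
    rw [mem_filter, mem_Icc]
    exact ⟨⟨le_refl _, Nat.one_le_pow _ _ hN⟩, squarefree_one⟩
  rw [SS_eq krm, DG_eq krm hε, ← add_sum_erase _ _ h1, ch_one, mul_one, add_sub_cancel_left]
  refine sum_congr ?_ fun _ _ => rfl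
  ext s
  rw [mem_erase, mem_filter]
  tauto

/-- partial summation -/
lemma abel (w a : ℕ → ℝ) (B : ℝ) (h1 : ∀ n, 1 ≤ n → |w n| ≤ B)
    (h2 : ∀ n : ℕ, 1 ≤ n → |w (n + 1) - w n| ≤ B / n) (X : ℕ) :
    |∑ n ∈ Icc 1 X, w n * a n| ≤
      B * (|∑ n ∈ Icc 1 X, a n| + ∑ m ∈ Icc 1 X, |∑ n ∈ Icc 1 m, a n| / m) := by
  have hB : 0 ≤ B := (abs_nonneg _).trans (h1 1 le_rfl)
  have key : ∀ X : ℕ, ∑ n ∈ Icc 1 X, w n * a n =
      w X * (∑ n ∈ Icc 1 X, a n) - ∑ m ∈ Icc 1 (X - 1), (w (m + 1) - w m) * ∑ n ∈ Icc 1 m, a n := by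
    intro X
    induction X with
    | zero => simp
    | succ X ih =>
      rcases Nat.eq_zero_or_pos X with h0 | h0
      · subst h0
        simp
      · rw [sum_Icc_succ_top (by omega), ih, sum_Icc_succ_top (by omega), Nat.add_sub_cancel]
        obtain ⟨Y, rfl⟩ : ∃ Y, X = Y + 1 := ⟨X - 1, by omega⟩
        rw [Nat.add_sub_cancel, sum_Icc_succ_top (a := 1) (b := Y) (by omega)
          (fun m => (w (m + 1) - w m) * ∑ n ∈ Icc 1 m, a n)]
        ring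
  rcases Nat.eq_zero_or_pos X with h0 | h0
  · subst h0
    simp
  rw [key X]
  calc |w X * (∑ n ∈ Icc 1 X, a n) - ∑ m ∈ Icc 1 (X - 1), (w (m + 1) - w m) * ∑ n ∈ Icc 1 m, a n|
      ≤ |w X * (∑ n ∈ Icc 1 X, a n)| +
        |∑ m ∈ Icc 1 (X - 1), (w (m + 1) - w m) * ∑ n ∈ Icc 1 m, a n| := abs_sub _ _
    _ ≤ B * |∑ n ∈ Icc 1 X, a n| + ∑ m ∈ Icc 1 (X - 1), B / m * |∑ n ∈ Icc 1 m, a n| := by
        refine add_le_add ?_ ?_
        · rw [abs_mul]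
          exact mul_le_mul_of_nonneg_right (h1 X h0) (abs_nonneg _)
        · refine (abs_sum_le_sum_abs _ _).trans (sum_le_sum fun m hm => ?_)
          rw [abs_mul]
          exact mul_le_mul_of_nonneg_right (h2 m (mem_Icc.1 hm).1) (abs_nonneg _)
    _ ≤ B * |∑ n ∈ Icc 1 X, a n| + ∑ m ∈ Icc 1 X, B / m * |∑ n ∈ Icc 1 m, a n| := by
        refine add_le_add le_rfl (sum_le_sum_of_subset_of_nonneg (Icc_subset_Icc le_rfl (by omega))
          fun m _ _ => by positivity)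
    _ = _ := by
        rw [mul_add, mul_sum]
        congr 1
        refine sum_congr rfl fun m _ => ?_
        ring

/-- the maximal sum -/
noncomputable def GG (ε : ℤ) (X s l : ℕ) : ℝ :=
  |KK ε X s l| + ∑ m ∈ Icc 1 X, |KK ε m s l| / m

open Classical in
lemma KK_eq (ε : ℤ) (X s l : ℕ) : KK ε X s l =
    ∑ n ∈ Icc 1 X, if IsFund (ε * (n : ℤ)) ∧ n.Coprime l then (kron (ε * (n : ℤ)) s : ℝ) else 0 := by
  unfold KK Fs
  rw [filter_filter, sum_filter]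

lemma inner_le (krm : S_KRM) {ε : ℤ} (hε : ε = 1 ∨ ε = -1) (w : ℕ → ℝ) (B : ℝ)
    (h1 : ∀ n, 1 ≤ n → |w n| ≤ B) (h2 : ∀ n : ℕ, 1 ≤ n → |w (n + 1) - w n| ≤ B / n)
    (X M : ℕ) (hM : 1 ≤ M) :
    |∑ n ∈ Fs ε X, w n * (kron (ε * (n : ℤ)) M : ℝ)| ≤ B * GG ε X (sfp M) (rt M) := by
  classical
  have e1 : ∑ n ∈ Fs ε X, w n * (kron (ε * (n : ℤ)) M : ℝ) = ∑ n ∈ Icc 1 X, w n *
      (if IsFund (ε * (n : ℤ)) ∧ n.Coprime (rt M) then (kron (ε * (n : ℤ)) (sfp M) : ℝ) else 0) := by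
    unfold Fs
    rw [sum_filter]
    refine sum_congr rfl fun n _ => ?_
    by_cases hf : IsFund (ε * (n : ℤ))
    · rw [if_pos hf]
      congr 1
      have h3 := kron_sl krm hε hf (sfp_pos M) (rt_pos M)
      rw [sfp_mul M hM] at h3
      rw [h3]
      by_cases hc : n.Coprime (rt M)
      · rw [if_pos hc, if_pos ⟨hf, hc⟩]
      · rw [if_neg hc, if_neg fun h => hc h.2]
    · rw [if_neg hf, if_neg fun h => hf h.1, mul_zero]
  rw [e1]
  refine (abel w _ B h1 h2 X).trans (le_of_eq ?_)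
  unfold GG
  rw [KK_eq]
  congr 2
  refine sum_congr rfl fun m _ => ?_
  rw [KK_eq]

end Pool.Agent.Q255.TQ
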