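import Pool.Agent.Q255.TQ.Aec1

set_option autoImplicit false

/-! The mean square of the coefficients of the off-diagonal part. -/

namespace Pool.Agent.Q255.TQ

open Finset Filter Topology MeasureTheory Pool.Agent.H306R2.RZ
open Pool.Agent.Q122.FM (kron IsFund LHalf IG kr2)

lemma card_fib (k N M : ℕ) (hM : 1 ≤ M) :
    ((Tu k N).filter (fun t => ∏ i, t i = M)).card ≤ M.divisors.card ^ k := by
  have h1 : (Tu k N).filter (fun t => ∏ i, t i = M) ⊆
      Fintype.piFinset (fun _ : Fin k => M.divisors) := by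
    intro t ht
    rw [mem_filter] at ht
    rw [Fintype.mem_piFinset]
    intro i
    rw [Nat.mem_divisors]
    refine ⟨?_, by omega⟩
    rw [← ht.2]
    exact dvd_prod_of_mem _ (mem_univ i)
  refine (card_le_card h1).trans (le_of_eq ?_)
  rw [Fintype.card_piFinset]
  simp

lemma GG_nonneg (ε : ℤ) (X s l : ℕ) : 0 ≤ GG ε X s l := by
  unfold GG
  positivity

/-- the harmonic sum -/
noncomputable def Hs (n : ℕ) : ℝ := ∑ m ∈ Icc 1 n, 1 / (m : ℝ)

lemma Hs_nonneg (n : ℕ) : 0 ≤ Hs n := by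
  unfold Hs
  positivity

lemma Hs_le (δ : ℝ) (hδ : 0 < δ) (n : ℕ) (hn : 1 ≤ n) : Hs n ≤ (1 + 1 / δ) * (n : ℝ) ^ δ := by
  have h1 : Hs n ≤ 1 + Real.log n := by
    have h2 := harmonic_le_one_add_log n
    refine le_trans (le_of_eq ?_) h2
    unfold Hs
    rw [harmonic_eq_sum_Icc]
    push_cast
    refine sum_congr rfl fun m _ => ?_
    rw [one_div]
  have hn1 : (1 : ℝ) ≤ n := by exact_mod_cast hn
  have h3 : Real.log n ≤ (n : ℝ) ^ δ / δ := Real.log_le_rpow_div (by positivity) hδ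
  have h4 : (1 : ℝ) ≤ (n : ℝ) ^ δ := Real.one_le_rpow hn1 hδ.le
  calc Hs n ≤ 1 + Real.log n := h1
    _ ≤ (n : ℝ) ^ δ + (n : ℝ) ^ δ / δ := add_le_add h4 h3
    _ = _ := by ring

lemma Cc_le (krm : S_KRM) {ε : ℤ} (hε : ε = 1 ∨ ε = -1) (X N k : ℕ)
    (w : (Fin k → ℕ) → ℕ → ℝ) (B : ℝ)
    (h1 : ∀ t n, (∀ i, 1 ≤ t i) → 1 ≤ n → |w t n| ≤ B)
    (h2 : ∀ (t : Fin k → ℕ) (n : ℕ), (∀ i, 1 ≤ t i) → 1 ≤ n → |w t (n + 1) - w t n| ≤ B / n)
    (hB : 0 ≤ B) (D : ℝ) (hD : 0 ≤ D)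
    (hDM : ∀ M : ℕ, 1 ≤ M → M ≤ N ^ k → ((M.divisors.card : ℝ)) ^ k ≤ D) (s : ℕ) :
    |Cc ε X N k w s| ≤ B * D / Real.sqrt s * ∑ l ∈ Icc 1 (N ^ k), GG ε X s l / l := by
  unfold Cc
  have hmem : ∀ t ∈ (Tu k N).filter (fun t => sfp (∏ i, t i) = s),
      rt (∏ i, t i) ∈ Icc 1 (N ^ k) := by
    intro t ht
    have h3 := Tu_mem.1 (mem_filter.1 ht).1
    have h4 := pr_pos fun i => (h3 i).1
    rw [mem_Icc]
    exact ⟨rt_pos _, (rt_le _ h4).trans (pr_le fun i => (h3 i).2)⟩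
  calc |∑ t ∈ (Tu k N).filter (fun t => sfp (∏ i, t i) = s),
        (∑ n ∈ Fs ε X, w t n * (kron (ε * (n : ℤ)) (∏ i, t i) : ℝ)) /
          Real.sqrt ((∏ i, t i : ℕ) : ℝ)|
      ≤ ∑ t ∈ (Tu k N).filter (fun t => sfp (∏ i, t i) = s),
        B * GG ε X s (rt (∏ i, t i)) / (Real.sqrt s * rt (∏ i, t i)) := by
        refine (abs_sum_le_sum_abs _ _).trans (sum_le_sum fun t ht => ?_)
        rw [mem_filter] at ht
        have h3 := Tu_mem.1 ht.1
        have h4 := pr_pos fun i => (h3 i).1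
        have h5 := inner_le krm hε (w t) B (fun n hn => h1 t n (fun i => (h3 i).1) hn)
          (fun n hn => h2 t n (fun i => (h3 i).1) hn) X (∏ i, t i) h4
        rw [ht.2] at h5
        rw [abs_div]
        have h6 : |Real.sqrt ((∏ i, t i : ℕ) : ℝ)| = Real.sqrt s * rt (∏ i, t i) := by
          rw [abs_of_nonneg (Real.sqrt_nonneg _)]
          conv_lhs => rw [← sfp_mul _ h4, ht.2]
          rw [Nat.cast_mul, Real.sqrt_mul (Nat.cast_nonneg _), Nat.cast_pow,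
            Real.sqrt_sq (Nat.cast_nonneg _)]
        rw [h6]
        exact div_le_div_of_nonneg_right h5 (by positivity)
    _ = ∑ l ∈ Icc 1 (N ^ k), ∑ t ∈ ((Tu k N).filter (fun t => sfp (∏ i, t i) = s)).filter
          (fun t => rt (∏ i, t i) = l), B * GG ε X s (rt (∏ i, t i)) /
            (Real.sqrt s * rt (∏ i, t i)) := (sum_fiberwise_of_maps_to hmem _).symm
    _ ≤ ∑ l ∈ Icc 1 (N ^ k), D * (B * GG ε X s l / (Real.sqrt s * l)) := by
        refine sum_le_sum fun l hl => ?_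
        have h3 : ∑ t ∈ ((Tu k N).filter (fun t => sfp (∏ i, t i) = s)).filter
          (fun t => rt (∏ i, t i) = l), B * GG ε X s (rt (∏ i, t i)) /
            (Real.sqrt s * rt (∏ i, t i)) =
            ((((Tu k N).filter (fun t => sfp (∏ i, t i) = s)).filter
              (fun t => rt (∏ i, t i) = l)).card : ℝ) * (B * GG ε X s l / (Real.sqrt s * l)) := by
          rw [← nsmul_eq_mul, ← sum_const]
          refine sum_congr rfl fun t ht => ?_
          rw [(mem_filter.1 ht).2]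
        rw [h3]
        have h0 : 0 ≤ B * GG ε X s l / (Real.sqrt s * l) := by
          have := GG_nonneg ε X s l
          positivity
        refine mul_le_mul_of_nonneg_right ?_ h0
        rcases ((((Tu k N).filter (fun t => sfp (∏ i, t i) = s)).filter
              (fun t => rt (∏ i, t i) = l))).eq_empty_or_nonempty with h4 | ⟨t, ht⟩
        · rw [h4, card_empty, Nat.cast_zero]
          exact hD
        · rw [mem_filter, mem_filter] at ht
          have h5 := Tu_mem.1 ht.1.1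
          have h6 := pr_pos fun i => (h5 i).1
          have h7 : ∏ i, t i = s * l ^ 2 := by
            rw [← ht.1.2, ← ht.2]
            exact (sfp_mul _ h6).symm
          have h8 : (((Tu k N).filter (fun t => sfp (∏ i, t i) = s)).filter
              (fun t => rt (∏ i, t i) = l)).card ≤
              ((Tu k N).filter (fun t => ∏ i, t i = s * l ^ 2)).card := by
            refine card_le_card fun u hu => ?_
            rw [mem_filter, mem_filter] at hu
            rw [mem_filter]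
            have h9 := pr_pos fun i => (Tu_mem.1 hu.1.1 i).1
            refine ⟨hu.1.1, ?_⟩
            rw [← hu.1.2, ← hu.2]
            exact (sfp_mul _ h9).symm
          have h9 := h8.trans (card_fib k N (s * l ^ 2) (h7 ▸ h6))
          have h10 := hDM (s * l ^ 2) (h7 ▸ h6) (h7 ▸ pr_le fun i => (h5 i).2)
          refine le_trans ?_ h10
          exact_mod_cast h9
    _ = _ := by
        rw [mul_sum]
        refine sum_congr rfl fun l _ => ?_
        ring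

lemma cs (I : Finset ℕ) (g : ℕ → ℝ) (hI : ∀ l ∈ I, 1 ≤ l) :
    (∑ l ∈ I, g l / l) ^ 2 ≤ (∑ l ∈ I, 1 / (l : ℝ)) * ∑ l ∈ I, g l ^ 2 / l := by
  have h1 := Finset.sum_mul_sq_le_sq_mul_sq I (fun l : ℕ => 1 / Real.sqrt l)
    (fun l : ℕ => g l / Real.sqrt l)
  have e1 : ∑ l ∈ I, (1 / Real.sqrt (l : ℝ)) * (g l / Real.sqrt l) = ∑ l ∈ I, g l / l := by
    refine sum_congr rfl fun l hl => ?_
    have h2 : (0 : ℝ) < l := by exact_mod_cast hI l hl
    rw [div_mul_div_comm, one_mul, Real.mul_self_sqrt h2.le]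
  have e2 : ∑ l ∈ I, (1 / Real.sqrt (l : ℝ)) ^ 2 = ∑ l ∈ I, 1 / (l : ℝ) := by
    refine sum_congr rfl fun l hl => ?_
    rw [div_pow, one_pow, Real.sq_sqrt (Nat.cast_nonneg _)]
  have e3 : ∑ l ∈ I, (g l / Real.sqrt (l : ℝ)) ^ 2 = ∑ l ∈ I, g l ^ 2 / (l : ℝ) := by
    refine sum_congr rfl fun l hl => ?_
    rw [div_pow, Real.sq_sqrt (Nat.cast_nonneg _)]
  rw [e1, e2, e3] at h1
  exact h1

lemma GG_sq (ε : ℤ) (X s l : ℕ) : GG ε X s l ^ 2 ≤
    2 * KK ε X s l ^ 2 + 2 * (Hs X * ∑ m ∈ Icc 1 X, KK ε m s l ^ 2 / m) := by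
  unfold GG
  have h1 := cs (Icc 1 X) (fun m => |KK ε m s l|) fun m hm => (mem_Icc.1 hm).1
  simp only [sq_abs] at h1
  have h2 : (|KK ε X s l| + ∑ m ∈ Icc 1 X, |KK ε m s l| / m) ^ 2 ≤
      2 * |KK ε X s l| ^ 2 + 2 * (∑ m ∈ Icc 1 X, |KK ε m s l| / m) ^ 2 := by
    nlinarith [sq_nonneg (|KK ε X s l| - ∑ m ∈ Icc 1 X, |KK ε m s l| / m)]
  rw [sq_abs] at h2
  unfold Hs
  linarith

/-- the mean square of the coefficients -/
theorem Cc_sq (sm : S_SUM) (krm : S_KRM) (dv : S_DIV) (k A : ℕ) (hk : 1 ≤ k) (hA : 1 ≤ A)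
    (δ : ℝ) (hδ : 0 < δ) :
    ∃ C : ℝ, 0 < C ∧ ∀ ε : ℤ, (ε = 1 ∨ ε = -1) → ∀ (X N : ℕ) (w : (Fin k → ℕ) → ℕ → ℝ) (B : ℝ),
      0 ≤ B → (∀ t n, (∀ i, 1 ≤ t i) → 1 ≤ n → |w t n| ≤ B) →
      (∀ (t : Fin k → ℕ) (n : ℕ), (∀ i, 1 ≤ t i) → 1 ≤ n → |w t (n + 1) - w t n| ≤ B / n) →
      1 ≤ X → 1 ≤ N → N ≤ X ^ A →
      ∑ s ∈ (sqf (N ^ k)).filter (fun s => s ≠ 1), Cc ε X N k w s ^ 2 ≤
        B ^ 2 * (C * (X : ℝ) ^ (1 + δ)) := by
  set P : ℝ := ((A * k : ℕ) : ℝ) with hP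
  have hP0 : 0 ≤ P := Nat.cast_nonneg _
  set δ' : ℝ := δ / (2 * P * k + 2 * P + 3) with hδ'
  have hden : 0 < 2 * P * k + 2 * P + 3 := by positivity
  have hd : 0 < δ' := div_pos hδ hden
  obtain ⟨CS, hCS, hS⟩ := sm (A * k) δ' hd
  obtain ⟨CD, hCD, hDv⟩ := dv δ' hd
  set CH : ℝ := 1 + 1 / δ' with hCH
  have hCH1 : 1 ≤ CH := by
    have : 0 ≤ 1 / δ' := by positivity
    linarith
  refine ⟨(CD ^ k) ^ 2 * CH ^ 2 * (2 * (1 + CH ^ 2) * CS), by positivity, ?_⟩
  intro ε hε X N w B hB h1 h2 hX hN hNX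
  have hX1 : (1 : ℝ) ≤ X := by exact_mod_cast hX
  have hX0 : (0 : ℝ) < X := by linarith
  set L : ℕ := N ^ k with hL
  have hL1 : 1 ≤ L := Nat.one_le_pow _ _ hN
  have hLX : L ≤ X ^ (A * k) := by
    rw [hL, pow_mul]
    exact Nat.pow_le_pow_left hNX k
  have hLR : (L : ℝ) ≤ (X : ℝ) ^ P := by
    rw [hP, Real.rpow_natCast]
    exact_mod_cast hLX
  set D : ℝ := CD ^ k * (X : ℝ) ^ (P * k * δ') with hD
  have hD0 : 0 ≤ D := by positivity
  have hDM : ∀ M : ℕ, 1 ≤ M → M ≤ N ^ k → ((M.divisors.card : ℝ)) ^ k ≤ D := by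
    intro M hM hML
    have h3 := hDv M hM
    have h4 : (M : ℝ) ≤ (X : ℝ) ^ P := le_trans (by exact_mod_cast hML) hLR
    calc ((M.divisors.card : ℝ)) ^ k ≤ (CD * (M : ℝ) ^ δ') ^ k :=
          pow_le_pow_left₀ (Nat.cast_nonneg _) h3 k
      _ ≤ (CD * ((X : ℝ) ^ P) ^ δ') ^ k := by
          refine pow_le_pow_left₀ (by positivity) ?_ k
          refine mul_le_mul_of_nonneg_left ?_ (by linarith)
          exact Real.rpow_le_rpow (Nat.cast_nonneg _) h4 hd.le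
      _ = D := by
          rw [hD, mul_pow, ← Real.rpow_mul hX0.le, ← Real.rpow_natCast, ← Real.rpow_natCast,
            ← Real.rpow_mul hX0.le]
          congr 2
          ring
  have hHL : Hs L ≤ CH * (X : ℝ) ^ (P * δ') := by
    refine (Hs_le δ' hd L hL1).trans ?_
    refine mul_le_mul_of_nonneg_left ?_ (by linarith)
    rw [Real.rpow_mul hX0.le]
    exact Real.rpow_le_rpow (Nat.cast_nonneg _) hLR hd.le
  have hHX : Hs X ≤ CH * (X : ℝ) ^ δ' := Hs_le δ' hd X hX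
  set K : ℝ := CS * (X : ℝ) ^ (1 + δ') with hK
  have hK0 : 0 ≤ K := by positivity
  set I := (sqf (N ^ k)).filter (fun s => s ≠ 1) with hI
  have hKK : ∀ Y l : ℕ, Y ≤ X → l ∈ Icc 1 L → ∑ s ∈ I, KK ε Y s l ^ 2 / s ≤ K := by
    intro Y l hY hl
    rw [mem_Icc] at hl
    refine le_trans ?_ (hS ε hε X Y l hX hY hl.1 (hl.2.trans hLX))
    refine sum_le_sum_of_subset_of_nonneg ?_ fun s _ _ => by positivity
    intro s hs
    rw [hI, mem_filter] at hs
    rw [mem_filter]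
    refine ⟨?_, hs.2⟩
    have h3 := hs.1
    unfold sqf at h3 ⊢
    rw [mem_filter, mem_Icc] at h3 ⊢
    exact ⟨⟨h3.1.1, h3.1.2.trans hLX⟩, h3.2⟩
  have hGG : ∀ l ∈ Icc 1 L, ∑ s ∈ I, GG ε X s l ^ 2 / s ≤ 2 * (1 + Hs X ^ 2) * K := by
    intro l hl
    calc ∑ s ∈ I, GG ε X s l ^ 2 / s ≤
          ∑ s ∈ I, (2 * (KK ε X s l ^ 2 / s) +
            2 * Hs X * ∑ m ∈ Icc 1 X, 1 / (m : ℝ) * (KK ε m s l ^ 2 / s)) := by
          refine sum_le_sum fun s _ => ?_
          refine (div_le_div_of_nonneg_right (GG_sq ε X s l) (Nat.cast_nonneg s)).trans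
            (le_of_eq ?_)
          have e1 : ∑ m ∈ Icc 1 X, 1 / (m : ℝ) * (KK ε m s l ^ 2 / s) =
              (∑ m ∈ Icc 1 X, KK ε m s l ^ 2 / m) / s := by
            rw [sum_div]
            exact sum_congr rfl fun m _ => by ring
          rw [e1]
          ring
      _ = 2 * (∑ s ∈ I, KK ε X s l ^ 2 / s) + 2 * Hs X *
            ∑ m ∈ Icc 1 X, 1 / (m : ℝ) * ∑ s ∈ I, KK ε m s l ^ 2 / s := by
          rw [sum_add_distrib, ← mul_sum, ← mul_sum, sum_comm]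
          congr 2
          exact sum_congr rfl fun m _ => by rw [mul_sum]
      _ ≤ 2 * K + 2 * Hs X * ∑ m ∈ Icc 1 X, 1 / (m : ℝ) * K := by
          refine add_le_add (mul_le_mul_of_nonneg_left (hKK X l le_rfl hl) (by norm_num)) ?_
          refine mul_le_mul_of_nonneg_left ?_ (mul_nonneg (by norm_num) (Hs_nonneg X))
          refine sum_le_sum fun m hm => ?_
          exact mul_le_mul_of_nonneg_left (hKK m l (mem_Icc.1 hm).2 hl) (by positivity)
      _ = _ := by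
          rw [← sum_mul]
          unfold Hs
          ring
  have hGGK : 2 * (1 + Hs X ^ 2) * K ≤ 2 * (1 + CH ^ 2) * CS * (X : ℝ) ^ (1 + 3 * δ') := by
    have h3 : Hs X ^ 2 ≤ CH ^ 2 * (X : ℝ) ^ (2 * δ') := by
      calc Hs X ^ 2 ≤ (CH * (X : ℝ) ^ δ') ^ 2 := pow_le_pow_left₀ (Hs_nonneg X) hHX 2
        _ = _ := by
          rw [mul_pow, ← Real.rpow_natCast ((X : ℝ) ^ δ'), ← Real.rpow_mul hX0.le]
          congr 2
          push_cast
          ring
    have h4 : (1 : ℝ) ≤ (X : ℝ) ^ (2 * δ') := Real.one_le_rpow hX1 (by positivity)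
    have h5 : 1 + Hs X ^ 2 ≤ (1 + CH ^ 2) * (X : ℝ) ^ (2 * δ') := by nlinarith
    calc 2 * (1 + Hs X ^ 2) * K ≤ 2 * ((1 + CH ^ 2) * (X : ℝ) ^ (2 * δ')) * K := by
          refine mul_le_mul_of_nonneg_right ?_ hK0
          linarith
      _ = 2 * (1 + CH ^ 2) * CS * ((X : ℝ) ^ (2 * δ') * (X : ℝ) ^ (1 + δ')) := by
          rw [hK]
          ring
      _ = _ := by
          rw [← Real.rpow_add hX0]
          congr 2
          ring
  calc ∑ s ∈ I, Cc ε X N k w s ^ 2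
      ≤ ∑ s ∈ I, (B * D) ^ 2 * (Hs L * ∑ l ∈ Icc 1 L, 1 / (l : ℝ) * (GG ε X s l ^ 2 / s)) := by
        refine sum_le_sum fun s hs => ?_
        have h3 := Cc_le krm hε X N k w B h1 h2 hB D hD0 hDM s
        have h4 : Cc ε X N k w s ^ 2 ≤
            (B * D / Real.sqrt s * ∑ l ∈ Icc 1 (N ^ k), GG ε X s l / l) ^ 2 := by
          rw [← sq_abs]
          exact pow_le_pow_left₀ (abs_nonneg _) h3 2
        refine h4.trans ?_
        rw [mul_pow, div_pow, Real.sq_sqrt (Nat.cast_nonneg _)]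
        have h5 := cs (Icc 1 L) (fun l => GG ε X s l) fun m hm => (mem_Icc.1 hm).1
        have e1 : ∑ l ∈ Icc 1 L, 1 / (l : ℝ) * (GG ε X s l ^ 2 / s) =
            (∑ l ∈ Icc 1 L, GG ε X s l ^ 2 / l) / s := by
          rw [sum_div]
          exact sum_congr rfl fun m _ => by ring
        rw [e1]
        have h6 : (B * D) ^ 2 / s * (∑ l ∈ Icc 1 (N ^ k), GG ε X s l / l) ^ 2 ≤
            (B * D) ^ 2 / s * (Hs L * ∑ l ∈ Icc 1 L, GG ε X s l ^ 2 / l) :=
          mul_le_mul_of_nonneg_left h5 (by positivity)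
        refine h6.trans (le_of_eq ?_)
        ring
    _ = (B * D) ^ 2 * (Hs L * ∑ l ∈ Icc 1 L, 1 / (l : ℝ) * ∑ s ∈ I, GG ε X s l ^ 2 / s) := by
        rw [← mul_sum, ← mul_sum, sum_comm]
        congr 3
        funext m
        rw [mul_sum]
    _ ≤ (B * D) ^ 2 * (Hs L * ∑ l ∈ Icc 1 L, 1 / (l : ℝ) * (2 * (1 + Hs X ^ 2) * K)) := by
        refine mul_le_mul_of_nonneg_left ?_ (by positivity)
        refine mul_le_mul_of_nonneg_left ?_ (Hs_nonneg L)
        exact sum_le_sum fun l hl => mul_le_mul_of_nonneg_left (hGG l hl) (by positivity)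
    _ = B ^ 2 * (D ^ 2 * Hs L ^ 2 * (2 * (1 + Hs X ^ 2) * K)) := by
        rw [← sum_mul]
        have : ∑ l ∈ Icc 1 L, 1 / (l : ℝ) = Hs L := rfl
        rw [this]
        ring
    _ ≤ B ^ 2 * (((CD ^ k) ^ 2 * (X : ℝ) ^ (2 * P * k * δ')) * (CH ^ 2 * (X : ℝ) ^ (2 * P * δ')) *
          (2 * (1 + CH ^ 2) * CS * (X : ℝ) ^ (1 + 3 * δ'))) := by
        refine mul_le_mul_of_nonneg_left ?_ (by positivity)
        have h7 : D ^ 2 = (CD ^ k) ^ 2 * (X : ℝ) ^ (2 * P * k * δ') := by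
          rw [hD, mul_pow, ← Real.rpow_natCast ((X : ℝ) ^ (P * k * δ')), ← Real.rpow_mul hX0.le]
          congr 2
          push_cast
          ring
        have h8 : Hs L ^ 2 ≤ CH ^ 2 * (X : ℝ) ^ (2 * P * δ') := by
          calc Hs L ^ 2 ≤ (CH * (X : ℝ) ^ (P * δ')) ^ 2 := pow_le_pow_left₀ (Hs_nonneg L) hHL 2
            _ = _ := by
              rw [mul_pow, ← Real.rpow_natCast ((X : ℝ) ^ (P * δ')), ← Real.rpow_mul hX0.le]
              congr 2
              push_cast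
              ring
        rw [h7]
        refine mul_le_mul (mul_le_mul_of_nonneg_left h8 (by positivity)) hGGK ?_ (by positivity)
        have := Hs_nonneg X
        positivity
    _ = _ := by
        have e2 : (X : ℝ) ^ (1 + δ) = (X : ℝ) ^ (2 * P * k * δ') * (X : ℝ) ^ (2 * P * δ') *
            (X : ℝ) ^ (1 + 3 * δ') := by
          rw [← Real.rpow_add hX0, ← Real.rpow_add hX0]
          congr 1
          have : δ = δ' * (2 * P * k + 2 * P + 3) := by
            rw [hδ', div_mul_cancel₀ _ hden.ne']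
          rw [this]
          ring
        rw [e2]
        ring

end Pool.Agent.Q255.TQ
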