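import Pool.Agent.Q255.TQ.Aec
import Pool.Agent.Q163.BC.Flip

set_option autoImplicit false

/-! The moments for almost every twist. -/

namespace Pool.Agent.Q255.TQ

open Finset Filter Topology MeasureTheory Pool.Agent.H306R2.RZ
open Pool.Agent.Q122.FM (kron IsFund LHalf IG kr2)
open Pool.Agent.Q163.GC (ch ch_mul abs_ch)
open Pool.Agent.Q163.RX (cm)
open Pool.Agent.Q163.BC (flS mp_flS)

/-- the law of the moments for a twist `f` -/
def Law (f : ℕ → ℝ) : Prop :=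
  ∀ k A : ℕ, 1 ≤ k → ∀ δ : ℝ, 0 < δ → ∃ C : ℝ, ∀ ε : ℤ, (ε = 1 ∨ ε = -1) → ∀ X : ℕ, 1 ≤ X →
    |∑ n ∈ Fs ε X, LT ε f n ^ k - MM ε k X| ≤ C * (X : ℝ) ^ (1 / 2 + δ) ∧
    ∀ N : ℕ, 1 ≤ N → N ≤ X ^ A →
      |∑ n ∈ Fs ε X, (∑ m ∈ Icc 1 N, f m * (kron (ε * (n : ℤ)) m : ℝ) / Real.sqrt m) ^ k -
        3 / Real.pi ^ 2 * X * BB k N| ≤ C * (X : ℝ) ^ (1 / 2 + δ)

lemma pow_tu (k N : ℕ) (a : ℕ → ℝ) : (∑ m ∈ Icc 1 N, a m) ^ k = ∑ t ∈ Tu k N, ∏ i, a (t i) := by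
  unfold Tu
  rw [← prod_univ_sum (fun _ : Fin k => Icc 1 N) (fun _ m => a m), prod_const, card_univ,
    Fintype.card_fin]

lemma SS_wt (ε : ℤ) (X N k : ℕ) (f : ℕ → ℝ) :
    SS ε X N k (wt ε k) f = ∑ n ∈ Fs ε X, LN ε N f n ^ k := by
  unfold SS
  refine sum_congr rfl fun n _ => ?_
  unfold LN
  rw [pow_tu]
  refine sum_congr rfl fun t _ => ?_
  unfold wt
  rw [← prod_mul_distrib]
  refine prod_congr rfl fun i _ => ?_
  ring

lemma SS_one (ε : ℤ) (X N k : ℕ) (f : ℕ → ℝ) :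
    SS ε X N k (fun _ _ => 1) f =
      ∑ n ∈ Fs ε X, (∑ m ∈ Icc 1 N, f m * (kron (ε * (n : ℤ)) m : ℝ) / Real.sqrt m) ^ k := by
  unfold SS
  refine sum_congr rfl fun n _ => ?_
  rw [pow_tu]
  refine sum_congr rfl fun t _ => ?_
  rw [one_mul]

/-- the bounds for the weights -/
lemma wt_bd (vp : S_VP) (k : ℕ) : ∃ B : ℝ, 1 ≤ B ∧ ∀ (ε : ℤ) (t : Fin k → ℕ) (n : ℕ),
    (∀ i, 1 ≤ t i) → 1 ≤ n → |wt ε k t n| ≤ B ∧ |wt ε k t (n + 1) - wt ε k t n| ≤ B / n := by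
  obtain ⟨C0, hC0, hV0, hD0⟩ := (vp 0 (Or.inl rfl)).2.2
  obtain ⟨C1, hC1, hV1, hD1⟩ := (vp 1 (Or.inr rfl)).2.2
  have hpar : ∀ ε : ℤ, par ε = 0 ∨ par ε = 1 := by
    intro ε
    unfold par
    split_ifs
    · exact Or.inl rfl
    · exact Or.inr rfl
  set D : ℝ := max C0 C1 with hD
  have hDp : 0 < D := lt_max_of_lt_left hC0
  have hV : ∀ (ε : ℤ) (m n : ℕ), 1 ≤ m → 1 ≤ n → |V (par ε) ((m : ℝ) / Real.sqrt n)| ≤ 2 ∧
      |V (par ε) ((m : ℝ) / Real.sqrt (n + 1 : ℕ)) - V (par ε) ((m : ℝ) / Real.sqrt n)| ≤ D / n := by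
    intro ε m n hm hn
    have hm0 : (0 : ℝ) < m := by exact_mod_cast hm
    have hn0 : (0 : ℝ) < n := by exact_mod_cast hn
    have h0 : 0 < (m : ℝ) / Real.sqrt n := div_pos hm0 (Real.sqrt_pos.2 hn0)
    have h1 := (vp (par ε) (hpar ε)).1 _ h0
    refine ⟨by rw [abs_of_pos h1.1]; exact h1.2, ?_⟩
    rcases hpar ε with h | h
    · rw [h]
      exact (hD0 m n hm hn).trans (div_le_div_of_nonneg_right (le_max_left _ _) hn0.le)
    · rw [h]
      exact (hD1 m n hm hn).trans (div_le_div_of_nonneg_right (le_max_right _ _) hn0.le)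
  -- products
  have key : ∀ (S : Finset (Fin k)) (ε : ℤ) (t : Fin k → ℕ) (n : ℕ), (∀ i, 1 ≤ t i) → 1 ≤ n →
      |∏ i ∈ S, V (par ε) ((t i : ℝ) / Real.sqrt n)| ≤ 2 ^ S.card ∧
      |∏ i ∈ S, V (par ε) ((t i : ℝ) / Real.sqrt (n + 1 : ℕ)) -
        ∏ i ∈ S, V (par ε) ((t i : ℝ) / Real.sqrt n)| ≤ S.card * 2 ^ S.card * D / n := by
    intro S
    induction S using Finset.cons_induction with
    | empty => intro ε t n _ _; simp
    | cons a S ha ih =>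
      intro ε t n ht hn
      have hn0 : (0 : ℝ) < n := by exact_mod_cast hn
      obtain ⟨h1, h2⟩ := ih ε t n ht hn
      have h1' := (ih ε t (n + 1) ht (by omega)).1
      obtain ⟨h3, h4⟩ := hV ε (t a) n (ht a) hn
      have h3' := (hV ε (t a) (n + 1) (ht a) (by omega)).1
      rw [prod_cons, prod_cons, card_cons]
      refine ⟨?_, ?_⟩
      · rw [abs_mul, pow_succ, mul_comm]
        exact mul_le_mul h1 h3 (abs_nonneg _) (by positivity)
      · set P := ∏ i ∈ S, V (par ε) ((t i : ℝ) / Real.sqrt n)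
        set Q := ∏ i ∈ S, V (par ε) ((t i : ℝ) / Real.sqrt (n + 1 : ℕ))
        set p := V (par ε) ((t a : ℝ) / Real.sqrt n)
        set q := V (par ε) ((t a : ℝ) / Real.sqrt (n + 1 : ℕ))
        have e1 : q * Q - p * P = (q - p) * Q + p * (Q - P) := by ring
        rw [e1]
        have h5 : |(q - p) * Q| ≤ D / n * 2 ^ S.card := by
          rw [abs_mul]
          exact mul_le_mul h4 h1' (abs_nonneg _) (by positivity)
        have h6 : |p * (Q - P)| ≤ 2 * (S.card * 2 ^ S.card * D / n) := by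
          rw [abs_mul]
          exact mul_le_mul h3 h2 (abs_nonneg _) (by norm_num)
        refine (abs_add_le _ _).trans ((add_le_add h5 h6).trans ?_)
        have h7 : D / n * 2 ^ S.card + 2 * (S.card * 2 ^ S.card * D / n) =
            (1 / 2 + S.card) * 2 ^ (S.card + 1) * D / n := by
          rw [pow_succ]
          ring
        rw [h7]
        refine div_le_div_of_nonneg_right ?_ hn0.le
        refine mul_le_mul_of_nonneg_right ?_ hDp.le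
        refine mul_le_mul_of_nonneg_right ?_ (by positivity)
        push_cast
        linarith
  refine ⟨2 ^ k + k * 2 ^ k * D, ?_, ?_⟩
  · have h1 : (1 : ℝ) ≤ 2 ^ k := one_le_pow₀ (by norm_num)
    have h2 : 0 ≤ (k : ℝ) * 2 ^ k * D := by positivity
    linarith
  · intro ε t n ht hn
    have hn0 : (0 : ℝ) < n := by exact_mod_cast hn
    obtain ⟨h1, h2⟩ := key univ ε t n ht hn
    rw [card_univ, Fintype.card_fin] at h1 h2
    unfold wt
    refine ⟨h1.trans (le_add_of_nonneg_right (by positivity)), h2.trans ?_⟩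
    refine div_le_div_of_nonneg_right ?_ hn0.le
    exact le_add_of_nonneg_left (by positivity)

lemma exp_bd (k : ℕ) (X : ℕ) : (X : ℝ) ^ k * Real.exp (-(X : ℝ)) ≤ k.factorial := by
  have h1 := Real.pow_div_factorial_le_exp (X : ℝ) (Nat.cast_nonneg _) k
  have hf : (0 : ℝ) < k.factorial := by exact_mod_cast k.factorial_pos
  rw [div_le_iff₀ hf] at h1
  calc (X : ℝ) ^ k * Real.exp (-(X : ℝ)) ≤
        (Real.exp X * k.factorial) * Real.exp (-(X : ℝ)) :=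
        mul_le_mul_of_nonneg_right h1 (Real.exp_pos _).le
    _ = k.factorial * (Real.exp X * Real.exp (-(X : ℝ))) := by ring
    _ = k.factorial := by rw [← Real.exp_add, add_neg_cancel, Real.exp_zero, mul_one]

/-- the whole series and its first `X` terms -/
lemma trunc (tal : S_TAL) (k : ℕ) (hk : 1 ≤ k) : ∃ C : ℝ, 0 ≤ C ∧ ∀ ε : ℤ, (ε = 1 ∨ ε = -1) →
    ∀ f : ℕ → ℝ, (∀ n, |f n| ≤ 1) → ∀ X : ℕ, 1 ≤ X →
      |∑ n ∈ Fs ε X, LT ε f n ^ k - ∑ n ∈ Fs ε X, LN ε X f n ^ k| ≤ C := by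
  obtain ⟨C, hC, h⟩ := tal
  refine ⟨C * k * C ^ (k - 1) * k.factorial, by positivity, ?_⟩
  intro ε hε f hf X hX
  have hX0 : (0 : ℝ) ≤ X := Nat.cast_nonneg _
  rw [← sum_sub_distrib]
  have h1 : ∀ n ∈ Fs ε X, |LT ε f n ^ k - LN ε X f n ^ k| ≤
      C * Real.exp (-(X : ℝ)) * k * (C * X) ^ (k - 1) := by
    intro n hn
    obtain ⟨h2, h3, h4⟩ := h ε hε f hf n X (mem_Fs.1 hn).1.1 (mem_Fs.1 hn).1.2
    refine (abs_pow_sub_pow_le _ _ _).trans ?_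
    refine mul_le_mul (mul_le_mul_of_nonneg_right h2 (Nat.cast_nonneg _)) ?_ (by positivity)
      (by positivity)
    exact pow_le_pow_left₀ (by positivity) (max_le h3 h4) _
  have hcard : ((Fs ε X).card : ℝ) ≤ X := by
    have : (Fs ε X).card ≤ (Icc 1 X).card := by
      refine card_le_card fun n hn => ?_
      rw [mem_Icc]
      exact (mem_Fs.1 hn).1
    rw [Nat.card_Icc, Nat.add_sub_cancel] at this
    exact_mod_cast this
  calc |∑ n ∈ Fs ε X, (LT ε f n ^ k - LN ε X f n ^ k)|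
      ≤ ∑ n ∈ Fs ε X, C * Real.exp (-(X : ℝ)) * k * (C * X) ^ (k - 1) :=
        (abs_sum_le_sum_abs _ _).trans (sum_le_sum h1)
    _ = (Fs ε X).card * (C * Real.exp (-(X : ℝ)) * k * (C * X) ^ (k - 1)) := by
        rw [sum_const, nsmul_eq_mul]
    _ ≤ X * (C * Real.exp (-(X : ℝ)) * k * (C * X) ^ (k - 1)) :=
        mul_le_mul_of_nonneg_right hcard (by positivity)
    _ = C * k * C ^ (k - 1) * ((X : ℝ) ^ k * Real.exp (-(X : ℝ))) := by
        obtain ⟨j, rfl⟩ : ∃ j, k = j + 1 := ⟨k - 1, by omega⟩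
        rw [Nat.add_sub_cancel, mul_pow, pow_succ (X : ℝ) j]
        ring
    _ ≤ _ := mul_le_mul_of_nonneg_left (exp_bd k X) (by positivity)

theorem ae_law (aec : S_AEC) (dgm : S_DGM) (vp : S_VP) (tal : S_TAL) :
    ∀ᵐ ω ∂cm, Law (ch ω) := by
  have h1 : ∀ k A j : ℕ, ∀ᵐ ω ∂cm, ∃ C : ℝ, ∀ ε : ℤ, (ε = 1 ∨ ε = -1) → ∀ X N : ℕ, 1 ≤ X →
      1 ≤ N → N ≤ X ^ (A + 1) → |SS ε X N (k + 1) (wt ε (k + 1)) (ch ω) -
        DG ε X N (k + 1) (wt ε (k + 1))| ≤ C * (X : ℝ) ^ (1 / 2 + 1 / ((j : ℝ) + 1)) := by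
    intro k A j
    obtain ⟨B, hB, hw⟩ := wt_bd vp (k + 1)
    exact aec (k + 1) (A + 1) B (fun ε => wt ε (k + 1)) (by omega) (by omega) hB hw _ (by positivity)
  have h2 : ∀ k A j : ℕ, ∀ᵐ ω ∂cm, ∃ C : ℝ, ∀ ε : ℤ, (ε = 1 ∨ ε = -1) → ∀ X N : ℕ, 1 ≤ X →
      1 ≤ N → N ≤ X ^ (A + 1) → |SS ε X N (k + 1) (fun _ _ => 1) (ch ω) -
        DG ε X N (k + 1) (fun _ _ => 1)| ≤ C * (X : ℝ) ^ (1 / 2 + 1 / ((j : ℝ) + 1)) := by
    intro k A j
    refine aec (k + 1) (A + 1) 1 (fun _ _ _ => 1) (by omega) (by omega) le_rfl ?_ _ (by positivity)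
    intro ε t n _ hn
    refine ⟨by norm_num, ?_⟩
    rw [sub_self, abs_zero]
    positivity
  filter_upwards [ae_all_iff.2 fun k => ae_all_iff.2 fun A => ae_all_iff.2 fun j => h1 k A j,
    ae_all_iff.2 fun k => ae_all_iff.2 fun A => ae_all_iff.2 fun j => h2 k A j] with ω hω1 hω2
  intro k A hk δ hδ
  obtain ⟨k, rfl⟩ : ∃ j, k = j + 1 := ⟨k - 1, by omega⟩
  obtain ⟨j, hj⟩ := exists_nat_one_div_lt hδ
  obtain ⟨C1, hC1⟩ := hω1 k A j
  obtain ⟨C2, hC2⟩ := hω2 k A j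
  obtain ⟨C3, hC3, hdg⟩ := dgm (k + 1) (A + 1) (by omega) δ hδ
  obtain ⟨C4, hC4, htr⟩ := trunc tal (k + 1) (by omega)
  refine ⟨|C1| + |C2| + C3 + C4, ?_⟩
  intro ε hε X hX
  have hX1 : (1 : ℝ) ≤ X := by exact_mod_cast hX
  have hp1 : (1 : ℝ) ≤ (X : ℝ) ^ (1 / 2 + δ) := Real.one_le_rpow hX1 (by positivity)
  have hp2 : (X : ℝ) ^ (1 / 2 + 1 / ((j : ℝ) + 1)) ≤ (X : ℝ) ^ (1 / 2 + δ) :=
    Real.rpow_le_rpow_of_exponent_le hX1 (by linarith)
  have hmul : ∀ C : ℝ, C * (X : ℝ) ^ (1 / 2 + 1 / ((j : ℝ) + 1)) ≤ |C| * (X : ℝ) ^ (1 / 2 + δ) := by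
    intro C
    refine (mul_le_mul_of_nonneg_right (le_abs_self C) (by positivity)).trans ?_
    exact mul_le_mul_of_nonneg_left hp2 (abs_nonneg C)
  obtain ⟨hd1, hd2⟩ := hdg ε hε X hX
  have hch : ∀ n, |ch ω n| ≤ 1 := fun n => (abs_ch ω n).le
  constructor
  · have e1 := hC1 ε hε X X hX hX (by
      calc X = X ^ 1 := (pow_one X).symm
        _ ≤ X ^ (A + 1) := Nat.pow_le_pow_right hX (by omega))
    rw [SS_wt] at e1
    have e2 := htr ε hε (ch ω) hch X hX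
    have e3 := (e1.trans (hmul C1))
    have e4 : C4 ≤ C4 * (X : ℝ) ^ (1 / 2 + δ) := le_mul_of_one_le_right hC4 hp1
    have e5 : 0 ≤ |C2| * (X : ℝ) ^ (1 / 2 + δ) := by positivity
    calc |∑ n ∈ Fs ε X, LT ε (ch ω) n ^ (k + 1) - MM ε (k + 1) X|
        = |(∑ n ∈ Fs ε X, LT ε (ch ω) n ^ (k + 1) - ∑ n ∈ Fs ε X, LN ε X (ch ω) n ^ (k + 1)) +
          (∑ n ∈ Fs ε X, LN ε X (ch ω) n ^ (k + 1) - DG ε X X (k + 1) (wt ε (k + 1))) +
          (DG ε X X (k + 1) (wt ε (k + 1)) - MM ε (k + 1) X)| := by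
            congr 1
            ring
      _ ≤ C4 + |C1| * (X : ℝ) ^ (1 / 2 + δ) + C3 * (X : ℝ) ^ (1 / 2 + δ) :=
          (abs_add_three _ _ _).trans (add_le_add (add_le_add e2 e3) hd1)
      _ ≤ _ := by
          rw [add_mul, add_mul, add_mul]
          linarith
  · intro N hN hNX
    have hNX' : N ≤ X ^ (A + 1) := hNX.trans (Nat.pow_le_pow_right hX (by omega))
    have e1 := hC2 ε hε X N hX hN hNX'
    rw [SS_one] at e1
    have e3 := (e1.trans (hmul C2))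
    have e4 := hd2 N hN hNX'
    have e5 : 0 ≤ |C1| * (X : ℝ) ^ (1 / 2 + δ) := by positivity
    have e6 : 0 ≤ C4 * (X : ℝ) ^ (1 / 2 + δ) := by positivity
    refine (abs_sub_le _ (DG ε X N (k + 1) (fun _ _ => 1)) _).trans ?_
    rw [add_mul, add_mul, add_mul]
    linarith

/-- an almost sure property holds for all finite modifications -/
theorem ae_finite {P : (ℕ → Bool) → Prop} (h : ∀ᵐ ω ∂cm, P ω) :
    ∀ᵐ ω ∂cm, ∀ ω' : ℕ → Bool, {p | ω' p ≠ ω p}.Finite → P ω' := by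
  classical
  have h1 : ∀ᵐ ω ∂cm, ∀ S : Finset ℕ, P (flS (S : Set ℕ) ω) := by
    rw [ae_all_iff]
    intro S
    exact (mp_flS (S : Set ℕ)).quasiMeasurePreserving.ae h
  filter_upwards [h1] with ω hω ω' hf
  have h2 := hω hf.toFinset
  have h3 : flS ((hf.toFinset : Finset ℕ) : Set ℕ) ω = ω' := by
    funext p
    unfold flS
    rw [Set.Finite.coe_toFinset]
    by_cases hp : ω' p = ω p
    · rw [if_neg (by simp [hp])]
      exact hp.symm
    · rw [if_pos (by simpa using hp)]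
      cases hω : ω p <;> cases hω' : ω' p <;> simp_all
  rwa [h3] at h2

end Pool.Agent.Q255.TQ
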