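import Pool.Agent.Q255.TQ.Stm

set_option autoImplicit false

/-! The squarefree part of an integer. -/

namespace Pool.Agent.Q255.TQ

open Finset Filter Topology MeasureTheory Pool.Agent.H306R2.RZ
open Pool.Agent.Q163.HC (od ch_eq_wp)
open Pool.Agent.Q163.GC (ch)
open Pool.Agent.Q163.RX (cm)

/-- the squarefree part -/
def sfp (M : ℕ) : ℕ := ∏ p ∈ od M, p

/-- the root of the square part -/
def rt (M : ℕ) : ℕ := ∏ p ∈ M.primeFactors, p ^ (M.factorization p / 2)

lemma sfp_mul (M : ℕ) (hM : 1 ≤ M) : sfp M * rt M ^ 2 = M := by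
  unfold sfp rt od
  rw [← prod_pow, prod_filter, ← prod_mul_distrib]
  conv_rhs => rw [← Nat.prod_factorization_pow_eq_self (show M ≠ 0 by omega)]
  rw [Finsupp.prod, Nat.support_factorization]
  refine prod_congr rfl fun p _ => ?_
  split_ifs with h
  · rw [← pow_mul, ← pow_succ']
    congr 1
    have := Nat.odd_iff.1 h
    omega
  · rw [one_mul, ← pow_mul]
    congr 1
    have := Nat.even_iff.1 (Nat.not_odd_iff_even.1 h)
    omega

lemma od_prime {M p : ℕ} (hp : p ∈ od M) : p.Prime :=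
  Nat.prime_of_mem_primeFactors (mem_filter.1 hp).1

lemma sfp_sqf (M : ℕ) : Squarefree (sfp M) := by
  unfold sfp
  refine Finset.squarefree_prod_of_pairwise_isCoprime ?_ fun p hp => (od_prime hp).squarefree
  intro p hp q hq hpq
  rw [Function.onFun, ← Nat.coprime_iff_isRelPrime]
  exact (Nat.coprime_primes (od_prime hp) (od_prime hq)).2 hpq

lemma sfp_pos (M : ℕ) : 1 ≤ sfp M := Nat.one_le_iff_ne_zero.2 (sfp_sqf M).ne_zero

lemma rt_pos (M : ℕ) : 1 ≤ rt M := by
  unfold rt
  refine Nat.one_le_iff_ne_zero.2 (prod_ne_zero_iff.2 fun p hp => ?_)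
  exact pow_ne_zero _ (Nat.prime_of_mem_primeFactors hp).ne_zero

lemma sfp_le (M : ℕ) (hM : 1 ≤ M) : sfp M ≤ M := by
  have h1 := sfp_mul M hM
  have h2 := rt_pos M
  calc sfp M = sfp M * 1 := (mul_one _).symm
    _ ≤ sfp M * rt M ^ 2 := Nat.mul_le_mul_left _ (Nat.one_le_pow _ _ h2)
    _ = M := h1

lemma rt_le (M : ℕ) (hM : 1 ≤ M) : rt M ≤ M := by
  have h1 := sfp_mul M hM
  have h2 := rt_pos M
  have h3 := sfp_pos M
  calc rt M = 1 * rt M ^ 1 := by ring
    _ ≤ sfp M * rt M ^ 2 := Nat.mul_le_mul h3 (Nat.pow_le_pow_right h2 (by norm_num))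
    _ = M := h1

/-- the prime factors of a squarefree number -/
lemma od_sqf {s : ℕ} (hs : Squarefree s) : od s = s.primeFactors := by
  unfold od
  refine filter_true_of_mem fun p hp => ?_
  have h1 := hs.natFactorization_le_one p
  have h2 := (Nat.prime_of_mem_primeFactors hp).factorization_pos_of_dvd hs.ne_zero
    (Nat.dvd_of_mem_primeFactors hp)
  have : s.factorization p = 1 := by omega
  rw [this]
  exact odd_one

lemma od_sfp (M : ℕ) : od (sfp M) = od M := by
  rw [od_sqf (sfp_sqf M)]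
  unfold sfp
  exact Nat.primeFactors_prod fun p hp => od_prime hp

lemma ch_sfp (ω : ℕ → Bool) (M : ℕ) : ch ω (sfp M) = ch ω M := by
  rw [ch_eq_wp, ch_eq_wp, od_sfp]

lemma ch_one (ω : ℕ → Bool) : ch ω 1 = 1 := by
  rw [ch_eq_wp]
  unfold od Pool.Agent.Q163.HC.wp
  simp

lemma sfp_one_iff {M : ℕ} (hM : 1 ≤ M) : sfp M = 1 ↔ IsSquare M := by
  constructor
  · intro h
    have h1 := sfp_mul M hM
    rw [h, one_mul] at h1
    exact ⟨rt M, by rw [← sq]; exact h1.symm⟩
  · rintro ⟨r, hr⟩
    have : od M = ∅ := by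
      unfold od
      refine filter_false_of_mem fun p _ => ?_
      rw [hr, ← sq, Nat.factorization_pow]
      simp [Nat.not_odd_iff_even]
    unfold sfp
    rw [this, prod_empty]

/-- different squarefree numbers have different sets of primes -/
lemma od_inj {s s' : ℕ} (hs : Squarefree s) (hs' : Squarefree s') (h : od s = od s') : s = s' := by
  rw [od_sqf hs, od_sqf hs'] at h
  rw [← Nat.prod_primeFactors_of_squarefree hs, ← Nat.prod_primeFactors_of_squarefree hs', h]

end Pool.Agent.Q255.TQ
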