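import Pool.Agent.Q122.FM.Stm
import Pool.Agent.Q163.HC.Num

set_option autoImplicit false

/-!
# Project TQ (helper255): moments of quadratic L-functions for almost every twist

`f` is the completely multiplicative function with independent fair signs at the primes. The central
value `L(1/2, χ_D) = ∑ χ_D(n)/√n · V(n/√|D|)` is replaced by `∑ f(n) χ_D(n)/√n · V(n/√|D|)`. All
moments of these numbers over the fundamental discriminants have asymptotic formulas with a power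
saving.
-/

namespace Pool.Agent.Q255.TQ

open Finset Filter Topology MeasureTheory Pool.Agent.H306R2.RZ
open Pool.Agent.Q122.FM (kron IsFund LHalf IG kr2)
open Pool.Agent.Q163.GC (ch)
open Pool.Agent.Q163.RX (cm)

noncomputable section

/-! ### the objects -/

open Classical in
/-- the `n ≤ X` such that `D = ε n` is a fundamental discriminant -/
def Fs (ε : ℤ) (X : ℕ) : Finset ℕ := (Icc 1 X).filter (fun n : ℕ => IsFund (ε * (n : ℤ)))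

/-- `∑ χ_D(s)` over the fundamental discriminants `D = ε n`, `n ≤ X`, coprime to `l` -/
def KK (ε : ℤ) (X s l : ℕ) : ℝ :=
  ∑ n ∈ (Fs ε X).filter (fun n => n.Coprime l), (kron (ε * (n : ℤ)) s : ℝ)

/-- `∑ (m/s)` over the squarefree `m ≤ Y` in the class `ρ` modulo `8`, coprime to `l` -/
def TT (ρ Y s l : ℕ) : ℝ := ∑ m ∈ (sqf Y).filter (fun m => m % 8 = ρ ∧ m.Coprime l), js m s

/-- the classes modulo `8` of the squarefree numbers -/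
def cl8 : Finset ℕ := {1, 2, 3, 5, 6, 7}

/-- the odd part of a squarefree number -/
def op (s : ℕ) : ℕ := if Odd s then s else s / 2

/-- `∏_{p | l} p/(p+1)` -/
def h (l : ℕ) : ℝ := ∏ p ∈ l.primeFactors, ((p : ℝ) / (p + 1))

/-- tuples with entries in `[1, N]` -/
def Tu (k N : ℕ) : Finset (Fin k → ℕ) := Fintype.piFinset fun _ => Icc 1 N

/-- the `k`-fold sum with weights -/
def SS (ε : ℤ) (X N k : ℕ) (w : (Fin k → ℕ) → ℕ → ℝ) (f : ℕ → ℝ) : ℝ :=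
  ∑ n ∈ Fs ε X, ∑ t ∈ Tu k N, w t n * ∏ i, (f (t i) * (kron (ε * (n : ℤ)) (t i) : ℝ) / Real.sqrt (t i))

/-- the diagonal -/
def DG (ε : ℤ) (X N k : ℕ) (w : (Fin k → ℕ) → ℕ → ℝ) : ℝ :=
  ∑ n ∈ Fs ε X, ∑ t ∈ (Tu k N).filter (fun t => IsSquare (∏ i, t i) ∧ n.Coprime (∏ i, t i)),
    w t n / Real.sqrt ((∏ i, t i : ℕ) : ℝ)

/-- `B_k(N)`, the sum over the tuples in `[1, N]^k` whose product is a square -/
def BB (k N : ℕ) : ℝ :=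
  ∑ t ∈ (Tu k N).filter (fun t => IsSquare (∏ i, t i)),
    h (∏ i, t i) / Real.sqrt ((∏ i, t i : ℕ) : ℝ)

/-- parity: `0` for `+`, `1` for `-` -/
def par (ε : ℤ) : ℕ := if ε = 1 then 0 else 1

/-- the weight function of the formula for the central value -/
def V (a : ℕ) (x : ℝ) : ℝ := 2 / gm (1 / 2 + (a : ℝ)) * IG a (x ^ 2)

/-- the central value of the family twisted by `f`, for the sign `ε` and `|D| = n` -/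
def LT (ε : ℤ) (f : ℕ → ℝ) (n : ℕ) : ℝ :=
  ∑' m : ℕ, f m * (kron (ε * (n : ℤ)) m : ℝ) / Real.sqrt m * V (par ε) ((m : ℝ) / Real.sqrt n)

/-- the same sum over `m ≤ N` -/
def LN (ε : ℤ) (N : ℕ) (f : ℕ → ℝ) (n : ℕ) : ℝ :=
  ∑ m ∈ Icc 1 N, f m * (kron (ε * (n : ℤ)) m : ℝ) / Real.sqrt m * V (par ε) ((m : ℝ) / Real.sqrt n)

/-- the weight of a tuple -/
def wt (ε : ℤ) (k : ℕ) (t : Fin k → ℕ) (n : ℕ) : ℝ :=
  ∏ i, V (par ε) ((t i : ℝ) / Real.sqrt n)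

/-- the main term -/
def MM (ε : ℤ) (k X : ℕ) : ℝ :=
  3 / Real.pi ^ 2 * ∑ t ∈ (Tu k X).filter (fun t => IsSquare (∏ i, t i)),
    h (∏ i, t i) / Real.sqrt ((∏ i, t i : ℕ) : ℝ) *
      ∫ x in Set.Ioc (0 : ℝ) X, ∏ i, V (par ε) ((t i : ℝ) / Real.sqrt x)

/-! ### the statements -/

/-- PVI: a character sum over a residue class, with a coprimality condition -/
def S_PVI : Prop := ∀ s : ℕ, Odd s → Squarefree s → 3 ≤ s → ∀ ρ Z l : ℕ, 1 ≤ l →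
  |∑ m ∈ (Icc 1 Z).filter (fun m => m % 8 = ρ ∧ m.Coprime l), js m s| ≤
    100 * l.divisors.card * Real.sqrt s * (1 + Real.log s)

/-- HBD: the large sieve for real characters in dual form -/
def S_HBD : Prop := ∀ δ : ℝ, 0 < δ → ∃ C : ℝ, 0 < C ∧ ∀ M N : ℕ, 1 ≤ M → 1 ≤ N → ∀ b : ℕ → ℝ,
  ∑ s ∈ osf N, (∑ m ∈ sqf M, b m * js m s) ^ 2 ≤
    C * ((M : ℝ) * N) ^ δ * (M + N) * ∑ m ∈ sqf M, b m ^ 2

/-- SQM: the squarefree numbers by the Moebius function, and all numbers by the squarefree ones -/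
def S_SQM : Prop := ∀ ρ ∈ cl8, ∀ Y s l : ℕ, Odd s → 1 ≤ l →
  TT ρ Y s l = ∑ a ∈ (Icc 1 Y).filter (fun a => a.Coprime (2 * l * s)),
    ((ArithmeticFunction.moebius a : ℤ) : ℝ) *
      ∑ m ∈ (Icc 1 (Y / a ^ 2)).filter (fun m => m % 8 = ρ ∧ m.Coprime l), js m s ∧
  ∑ m ∈ (Icc 1 Y).filter (fun m => m % 8 = ρ ∧ m.Coprime l), js m s =
    ∑ b ∈ (Icc 1 Y).filter (fun b => b.Coprime (2 * l * s)), TT ρ (Y / b ^ 2) s l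

/-- LSK: the mean square of the sums over squarefree numbers -/
def S_LSK : Prop := ∀ A : ℕ, ∀ δ : ℝ, 0 < δ → ∃ C : ℝ, 0 < C ∧ ∀ X Y S l ρ : ℕ, 1 ≤ X → Y ≤ X →
  1 ≤ S → S ≤ X ^ A → 1 ≤ l → l ≤ X ^ A → ρ ∈ cl8 →
  ∑ s ∈ (osf S).filter (fun s => 3 ≤ s), TT ρ Y s l ^ 2 ≤ C * (X : ℝ) ^ (1 + δ) * S

/-- RED: fundamental discriminants and squarefree numbers -/
def S_RED : Prop := ∀ ε : ℤ, (ε = 1 ∨ ε = -1) → ∀ X s l : ℕ, Squarefree s → 1 ≤ l →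
  |KK ε X s l| ≤ ∑ ρ ∈ cl8, (|TT ρ X (op s) l| + |TT ρ (X / 4) (op s) l|)

/-- TWO: the sum for `s = 2` -/
def S_TWO : Prop := ∀ ε : ℤ, (ε = 1 ∨ ε = -1) → ∀ X l : ℕ, 1 ≤ l →
  |KK ε X 2 l| ≤ 4 * l.divisors.card * Real.sqrt X

/-- SUM: the sum over `s` -/
def S_SUM : Prop := ∀ A : ℕ, ∀ δ : ℝ, 0 < δ → ∃ C : ℝ, 0 < C ∧ ∀ ε : ℤ, (ε = 1 ∨ ε = -1) →
  ∀ X Y l : ℕ, 1 ≤ X → Y ≤ X → 1 ≤ l → l ≤ X ^ A →
  ∑ s ∈ (sqf (X ^ A)).filter (fun s => s ≠ 1), KK ε Y s l ^ 2 / s ≤ C * (X : ℝ) ^ (1 + δ)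

/-- KRM: the Kronecker symbol is completely multiplicative -/
def S_KRM : Prop := ∀ D : ℤ, (∀ m n : ℕ, 1 ≤ m → 1 ≤ n → kron D (m * n) = kron D m * kron D n) ∧
  kron D 1 = 1 ∧ (∀ n : ℕ, |kron D n| ≤ 1) ∧
  (IsFund D → ∀ l : ℕ, 1 ≤ l → kron D (l ^ 2) = if D.natAbs.Coprime l then 1 else 0)

/-- AEC: almost every twist -/
def S_AEC : Prop := ∀ (k A : ℕ) (B : ℝ) (w : ℤ → (Fin k → ℕ) → ℕ → ℝ), 1 ≤ k → 1 ≤ A → 1 ≤ B →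
  (∀ ε t n, (∀ i, 1 ≤ t i) → 1 ≤ n → |w ε t n| ≤ B ∧ |w ε t (n + 1) - w ε t n| ≤ B / n) →
  ∀ δ : ℝ, 0 < δ → ∀ᵐ ω ∂cm, ∃ C : ℝ, ∀ ε : ℤ, (ε = 1 ∨ ε = -1) → ∀ X N : ℕ, 1 ≤ X → 1 ≤ N →
    N ≤ X ^ A → |SS ε X N k (w ε) (ch ω) - DG ε X N k (w ε)| ≤ C * (X : ℝ) ^ (1 / 2 + δ)

/-- CL8: squarefree numbers in residue classes modulo `8` -/
def S_CL8 : Prop := ∃ C : ℝ, 0 < C ∧ ∀ ρ ∈ cl8, ∀ Y l : ℕ, 1 ≤ l → (Even ρ → Odd l) →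
  |(((sqf Y).filter (fun m => m % 8 = ρ ∧ m.Coprime l)).card : ℝ) -
    Y / Real.pi ^ 2 * (if Odd l then h l else 3 / 2 * h l)| ≤ C * l.divisors.card * Real.sqrt Y

/-- CNT: the number of fundamental discriminants coprime to `l` -/
def S_CNT : Prop := ∃ C : ℝ, 0 < C ∧ ∀ ε : ℤ, (ε = 1 ∨ ε = -1) → ∀ X l : ℕ, 1 ≤ l →
  |(((Fs ε X).filter (fun n => n.Coprime l)).card : ℝ) - 3 / Real.pi ^ 2 * X * h l| ≤
    C * l.divisors.card * (Real.sqrt X + 1)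

/-- BBU: upper bound for `B_k(N)` (also without the factor `h`) -/
def S_BBU : Prop := ∀ k : ℕ, 1 ≤ k → ∃ C : ℝ, 0 < C ∧ ∀ N : ℕ, 2 ≤ N →
  ∑ t ∈ (Tu k N).filter (fun t => IsSquare (∏ i, t i)), 1 / Real.sqrt ((∏ i, t i : ℕ) : ℝ) ≤
    C * Real.log N ^ (k * (k + 1) / 2)

/-- BBL: lower bound for `B_k(N)` -/
def S_BBL : Prop := ∀ k : ℕ, 1 ≤ k → ∃ c : ℝ, 0 < c ∧ ∀ N : ℕ, 2 ≤ N →
  c * Real.log N ^ (k * (k + 1) / 2) ≤ BB k N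

/-- VP: the weight function -/
def S_VP : Prop := ∀ a : ℕ, (a = 0 ∨ a = 1) →
  (∀ x : ℝ, 0 < x → 0 < V a x ∧ V a x ≤ 2) ∧
  (∀ x y : ℝ, 0 < x → x ≤ y → V a y ≤ V a x) ∧
  (∃ C : ℝ, 0 < C ∧ (∀ x : ℝ, 0 < x → V a x ≤ C * Real.exp (-x ^ 2)) ∧
    (∀ m n : ℕ, 1 ≤ m → 1 ≤ n →
      |V a ((m : ℝ) / Real.sqrt (n + 1 : ℕ)) - V a ((m : ℝ) / Real.sqrt n)| ≤ C / n))

/-- AFE: the central value -/
def S_AFE : Prop := ∀ ε : ℤ, (ε = 1 ∨ ε = -1) → ∀ n : ℕ, 2 ≤ n → IsFund (ε * (n : ℤ)) →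
  LT ε (fun _ => 1) n = LHalf (ε * (n : ℤ))

/-- TAL: truncation -/
def S_TAL : Prop := ∃ C : ℝ, 0 < C ∧ ∀ ε : ℤ, (ε = 1 ∨ ε = -1) → ∀ f : ℕ → ℝ, (∀ n, |f n| ≤ 1) →
  ∀ n N : ℕ, 1 ≤ n → n ≤ N →
    |LT ε f n - LN ε N f n| ≤ C * Real.exp (-(N : ℝ)) ∧ |LT ε f n| ≤ C * N ∧ |LN ε N f n| ≤ C * N

/-- DGM: the diagonal and the main term -/
def S_DGM : Prop := ∀ k A : ℕ, 1 ≤ k → ∀ δ : ℝ, 0 < δ → ∃ C : ℝ, 0 < C ∧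
  ∀ ε : ℤ, (ε = 1 ∨ ε = -1) → ∀ X : ℕ, 1 ≤ X →
    |DG ε X X k (wt ε k) - MM ε k X| ≤ C * (X : ℝ) ^ (1 / 2 + δ) ∧
    ∀ N : ℕ, 1 ≤ N → N ≤ X ^ A →
      |DG ε X N k (fun _ _ => 1) - 3 / Real.pi ^ 2 * X * BB k N| ≤ C * (X : ℝ) ^ (1 / 2 + δ)

/-- MMB: the order of magnitude of the main term -/
def S_MMB : Prop := ∀ k : ℕ, 1 ≤ k → ∃ c C : ℝ, 0 < c ∧ 0 < C ∧ ∀ ε : ℤ, (ε = 1 ∨ ε = -1) →
  ∀ X : ℕ, 16 ≤ X →
    c * X * Real.log X ^ (k * (k + 1) / 2) ≤ MM ε k X ∧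
    MM ε k X ≤ C * X * Real.log X ^ (k * (k + 1) / 2)

/-- DIV: the divisor function -/
def S_DIV : Prop := ∀ δ : ℝ, 0 < δ → ∃ C : ℝ, 1 ≤ C ∧ ∀ n : ℕ, 1 ≤ n →
  (n.divisors.card : ℝ) ≤ C * (n : ℝ) ^ δ

end

end Pool.Agent.Q255.TQ
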