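import Pool.Agent.Q255.TQ.Stm

set_option autoImplicit false

/-! Project TQ, second part: the main term for `k = 1`. -/

namespace Pool.Agent.Q255.TQ

open Finset Filter Topology MeasureTheory Pool.Agent.H306R2.RZ
open Pool.Agent.Q122.FM (P1 Lp Q1 lam)

noncomputable section

/-- HH: the harmonic sum with the weight `h(l) = ∏_{p | l} p/(p+1)`.
Proof: `h = 1 * g`, `g` multiplicative, `g(p) = -1/(p+1)`, `g(p^j) = 0` for `j ≥ 2`;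
`∑_{l ≤ y} h(l)/l = ∑_d g(d)/d ∑_{m ≤ y/d} 1/m` and `∑_{m ≤ z} 1/m = log z + γ + O(z^(-1/2))` for all
`z > 0`; `∑ g(d)/d = P1`, `-∑ g(d) log d/d = P1 Lp`; all sums over `d` converge absolutely, even with
the weight `d^(1/2)`, since `|g(d)| ≤ 1/d` on squarefree `d`. -/
def S_HH : Prop := ∃ C : ℝ, 0 < C ∧ ∀ y : ℝ, 0 < y →
  |∑ l ∈ Icc 1 ⌊y⌋₊, h l / (l : ℝ) -
    P1 * (Real.log y + Real.eulerMascheroniConstant + Lp)| ≤ C * y ^ (-(1 / 2) : ℝ)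

/-- Q1M: the main term for `k = 1` is the one of the conjecture.
Proof: the tuples are `t = l²`, `l ≤ √X`. `V a (l²/√x) = (2/gm(1/2+a)) ∫_{t > l⁴/x} t^(a/2-3/4) e^(-πt) dt`;
the terms `l > √X` contribute `O(1)` (`V a y ≤ C exp(-y²)`, given by `S_VP`), so that
`∑_l h(l)/l V a (l²/√x) = (2/gm(1/2+a)) ∫_0^∞ t^(a/2-3/4) e^(-πt) H((x t)^(1/4)) dt`,
`H(y) = ∑_{l ≤ y} h(l)/l`; insert `S_HH`: the main term is `2 P1 ((log x + lam a)/4 + γ + Lp) = Q1 a (log x)`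
by `S_LMI` (`Pool.Agent.Q275.FM.t_LMI`), the error is `≪ ∫ t^(a/2-3/4) e^(-πt) (x t)^(-1/8) dt ≪ x^(-1/8)`.
Integrate over `x`. -/
def S_Q1M : Prop := ∃ C : ℝ, 0 < C ∧ ∀ ε : ℤ, (ε = 1 ∨ ε = -1) → ∀ X : ℕ, 1 ≤ X →
  |MM ε 1 X - 3 / Real.pi ^ 2 * ∫ t in (1 : ℝ)..X, Q1 (par ε) (Real.log t)| ≤
    C * (X : ℝ) ^ (7 / 8 : ℝ)

end

end Pool.Agent.Q255.TQ
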