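import Pool.Agent.Q255.TQ.Aec1

set_option autoImplicit false

/-! Project TQ, third part: the exponent `1/2` is the true one in mean square. -/

namespace Pool.Agent.Q255.TQ

open Finset Filter Topology MeasureTheory Pool.Agent.H306R2.RZ
open Pool.Agent.Q122.FM (kron IsFund)
open Pool.Agent.Q163.GC (ch)
open Pool.Agent.Q163.RX (cm)

noncomputable section

/-- LOV: the mean square of `∑_D χ_D(s)` over long ranges of squarefree `s`.
Proof: the left side is `∑_{D,D'} ∑_s χ_D(s) χ_{D'}(s)/s`. Terms `D = D'`: each is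
`≥ (1/N) #{s ∈ (N/2, N] squarefree, (s,D) = 1} ≥ c ∏_{p | D}(1 - 1/p) - C τ(D)/√N`, and the sum over `D` is
`≥ c X` (e.g. keep only even or odd `D` with `∑_{p | D} 1/p ≤ C`: all but a small part of the `D`; or
`∑_D φ(D)/D ≥ (#D)²/∑_D D/φ(D)`). Terms `D ≠ D'`: `ψ(s) = χ_D(s) χ_{D'}(s)` is a nonprincipal character with
period `4 D D'` (up to sign), so that `|∑_{s ≤ y} ψ(s)| ≤ 4 X²`; squarefree `s`: Moebius over `a² | s`,
`∑_a min(N/a², 4X²) ≤ 8 X √N`; with the weight `1/s` at most `C X/√N`; there are `X²` pairs, and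
`X³/√N ≤ √X` for `N ≥ X⁵`. -/
def S_LOV : Prop := ∃ c : ℝ, 0 < c ∧ ∃ X0 : ℕ, ∀ ε : ℤ, (ε = 1 ∨ ε = -1) → ∀ X N : ℕ, X0 ≤ X →
  X ^ 5 ≤ N → c * X ≤ ∑ s ∈ (sqf N).filter (fun s => N < 2 * s), KK ε X s 1 ^ 2 / s

/-- LOW: the mean square over the twists of the remainder of the first moment of the long sums.
Proof: by `diff_eq` (file `Aec1`, `k = 1`, `w = 1`) the sum minus `DG` is `∑_{s ≠ 1} c_s f(s)`,
`c_s = Cc ε X N 1 1 s`; orthogonality of the `ch ω s`, `s` squarefree; for every real `b` the integral of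
`(Y - b)²` is at least the variance `∑_{s ≠ 1} c_s²`, and `c_s = KK ε X s 1 / √s` for `N/2 < s ≤ N`
(`t = s` is the only tuple, as `s l² ≤ N` forces `l = 1`). Then `S_LOV`. -/
def S_LOW : Prop := ∃ c : ℝ, 0 < c ∧ ∃ X0 : ℕ, ∀ ε : ℤ, (ε = 1 ∨ ε = -1) → ∀ X N : ℕ, X0 ≤ X →
  X ^ 5 ≤ N → ∀ b : ℝ, c * X ≤ ∫ ω, (∑ n ∈ Fs ε X,
    ∑ m ∈ Icc 1 N, ch ω m * (kron (ε * (n : ℤ)) m : ℝ) / Real.sqrt m - b) ^ 2 ∂cm

end

end Pool.Agent.Q255.TQ
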